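import Pool.Agent.H725.HF.Main

/-!
# MP_46fb1e_lc, Q1: templates of CSPs in HerFO do not pp-construct K_3

If CSP(B) = HER(φ) for some first-order sentence φ then B does not pp-construct K_3. No finiteness
assumption on B or on the signature is needed, and no complexity-theoretic assumption. By the
theorem of Bulatov and Zhuk (for finite B: if B does not pp-construct K_3 then CSP(B) is in P,
not formalised and not used here) this gives a positive answer to Q1.

Idea: from a pp-construction one gets instances A_n without a homomorphism to B, which encode a
long chain of equalities with a long chain of disjunctions, and a set S_n such that the induced
substructure on S_n violates φ. By pigeonhole two of the segments of A_n carry the same trace of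
S_n; cutting the two segments and crossing the ends gives an instance A'_n on the same set which
has a homomorphism to B, so that the substructure of A'_n induced on S_n satisfies φ. But the
ultraproducts of the two sequences of substructures on S_n are isomorphic, by an external swap of
the standard parts of the two segments.
-/

namespace Pool.Agent.Results.MP_46fb1e_lc.HerFONoK3

open Pool.Agent.H725.HF

theorem result (L : FirstOrder.Language.{0, 0}) [L.IsRelational] (B : Type) [L.Structure B]
    (h : HerFO L B) : ¬ PPConstructsK3 L B :=
  main B h

end Pool.Agent.Results.MP_46fb1e_lc.HerFONoK3
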